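import Pool.Agent.N936.TC.Stm

/-!
# The set `W` is connected (helper832, project TC of helper936)
-/

namespace Pool.Agent.N832.TC.Wconn

open Set Topology Pool.Agent.N936.TC

noncomputable def e8 : I := ⟨1 / 8, by norm_num, by norm_num⟩
noncomputable def q4 : I := ⟨1 / 4, by norm_num, by norm_num⟩
noncomputable def f8 : I := ⟨5 / 8, by norm_num, by norm_num⟩

lemma e8_val : ((e8 : I) : ℝ) = 1 / 8 := rfl
lemma q4_val : ((q4 : I) : ℝ) = 1 / 4 := rfl
lemma f8_val : ((f8 : I) : ℝ) = 5 / 8 := rfl

lemma mem_uIcc_val {a b u : I} (h : u ∈ uIcc a b) :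
    ((a : ℝ) ≤ u ∧ (u : ℝ) ≤ b) ∨ ((b : ℝ) ≤ u ∧ (u : ℝ) ≤ a) := by
  rcases mem_uIcc.mp h with h | h
  · exact Or.inl ⟨h.1, h.2⟩
  · exact Or.inr ⟨h.1, h.2⟩

theorem t_WCONN : S_WCONN := by
  intro σ X _ _ Φ hΦ hbot htop hT
  have hmem : ∀ q i s r j t, M1 i ((s : I) : ℝ) ((t : I) : ℝ) →
      (Φ (q, i, s), Φ (r, j, t)) ∈ Wset Φ := fun q i s r j t h => ⟨q, i, s, r, j, t, h, rfl⟩
  refine ⟨⟨_, hmem (fun _ => false) false 0 (fun _ => false) false e8 (Or.inl rfl)⟩, ?_⟩
  refine isPreconnected_of_forall_constant ?_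
  intro f hf
  obtain ⟨H, hH⟩ : ∃ H : Q → Bool → I → Q → Bool → I → Bool,
      ∀ q i s r j t, H q i s r j t = f (Φ (q, i, s), Φ (r, j, t)) := ⟨_, fun _ _ _ _ _ _ => rfl⟩
  have hseg : ∀ (q : Q) (i : Bool) (r : Q) (j : Bool) (s s' t : I),
      (∀ u ∈ uIcc s s', M1 i ((u : I) : ℝ) (t : ℝ)) → H q i s r j t = H q i s' r j t := by
    intro q i r j s s' t hM
    have hc : ContinuousOn (fun u : I => f (Φ (q, i, u), Φ (r, j, t))) (uIcc s s') := by
      refine hf.comp (Continuous.continuousOn (by fun_prop)) ?_
      intro u hu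
      exact hmem _ _ _ _ _ _ (hM u hu)
    rw [hH, hH]
    exact isPreconnected_uIcc.constant hc left_mem_uIcc right_mem_uIcc
  have vseg : ∀ (q : Q) (i : Bool) (r : Q) (j : Bool) (s t t' : I),
      (∀ u ∈ uIcc t t', M1 i (s : ℝ) ((u : I) : ℝ)) → H q i s r j t = H q i s r j t' := by
    intro q i r j s t t' hM
    have hc : ContinuousOn (fun u : I => f (Φ (q, i, s), Φ (r, j, u))) (uIcc t t') := by
      refine hf.comp (Continuous.continuousOn (by fun_prop)) ?_
      intro u hu
      exact hmem _ _ _ _ _ _ (hM u hu)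
    rw [hH, hH]
    exact isPreconnected_uIcc.constant hc left_mem_uIcc right_mem_uIcc
  have bot1 : ∀ q i i' r j t, H q i 0 r j t = H q i' 0 r j t := by
    intro q i i' r j t
    rw [hH, hH, hbot q i i']
  have bot2 : ∀ q i s r j j', H q i s r j 0 = H q i s r j' 0 := by
    intro q i s r j j'
    rw [hH, hH, hbot r j j']
  have top1 : ∀ q i i' r j t, H q i 1 r j t = H (σ i q) i' 0 r j t := by
    intro q i i' r j t
    rw [hH, hH, htop q i i']
  have top2 : ∀ q i s r j j', H q i s r j 1 = H q i s (σ j r) j' 0 := by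
    intro q i s r j j'
    rw [hH, hH, htop r j j']
  have z0 : ((0 : I) : ℝ) = 0 := rfl
  have z1 : ((1 : I) : ℝ) = 1 := rfl
  -- page `false`
  have F1 : ∀ q r j (s : I), H q false s r j e8 = H q false 0 r j e8 := by
    intro q r j s
    exact hseg q false r j s 0 e8 fun u _ => Or.inl rfl
  have F2 : ∀ q r j (s : I), (s : ℝ) ≤ 1 / 4 → H q false s r j f8 = H q false 0 r j f8 := by
    intro q r j s hs
    refine hseg q false r j s 0 f8 fun u hu => Or.inr (Or.inl ⟨?_, rfl⟩)
    have h0 := u.2.1
    rcases mem_uIcc_val hu with h | h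
    · have := s.2.1
      rw [z0] at h
      linarith [h.2]
    · linarith [h.2]
  have F3 : ∀ q r j (t : I), (1 : ℝ) / 8 ≤ t → (t : ℝ) ≤ 5 / 8 →
      H q false q4 r j t = H q false q4 r j e8 := by
    intro q r j t h1 h2
    refine vseg q false r j q4 t e8 fun u hu => Or.inr (Or.inr (Or.inl ⟨rfl, ?_, ?_⟩))
    · rcases mem_uIcc_val hu with h | h
      · linarith [h.1]
      · have := h.1
        rw [e8_val] at this
        linarith
    · rcases mem_uIcc_val hu with h | h
      · have := h.2
        rw [e8_val] at this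
        linarith
      · linarith [h.2]
  have F4 : ∀ q r j (s t : I), (3 : ℝ) / 8 ≤ s → (s : ℝ) ≤ 5 / 8 → (1 : ℝ) / 16 ≤ t →
      (t : ℝ) ≤ 3 / 16 → H q false s r j t = H q false s r j e8 := by
    intro q r j s t h1 h2 h3 h4
    refine vseg q false r j s t e8 fun u hu => Or.inr (Or.inr (Or.inr ⟨h1, h2, ?_, ?_⟩))
    · rcases mem_uIcc_val hu with h | h
      · linarith [h.1]
      · have := h.1
        rw [e8_val] at this
        linarith
    · rcases mem_uIcc_val hu with h | h
      · have := h.2
        rw [e8_val] at this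
        linarith
      · linarith [h.2]
  -- page `true`
  have T1 : ∀ q r j (s : I), H q true s r j f8 = H q true 0 r j f8 := by
    intro q r j s
    exact hseg q true r j s 0 f8 fun u _ => Or.inl rfl
  have T2 : ∀ q r j (t : I), (5 : ℝ) / 8 ≤ t → H q true q4 r j t = H q true q4 r j f8 := by
    intro q r j t ht
    refine vseg q true r j q4 t f8 fun u hu => Or.inr (Or.inl ⟨rfl, Or.inl ?_⟩)
    rcases mem_uIcc_val hu with h | h
    · linarith [h.1]
    · have := h.1
      rw [f8_val] at this
      linarith
  have T3 : ∀ q r j (t : I), (t : ℝ) ≤ 1 / 8 → H q true q4 r j t = H q true q4 r j e8 := by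
    intro q r j t ht
    refine vseg q true r j q4 t e8 fun u hu => Or.inr (Or.inl ⟨rfl, Or.inr ?_⟩)
    rcases mem_uIcc_val hu with h | h
    · have := h.2
      rw [e8_val] at this
      linarith
    · linarith [h.2]
  have T4 : ∀ q r j (s : I), (s : ℝ) ≤ 1 / 4 → H q true s r j e8 = H q true 0 r j e8 := by
    intro q r j s hs
    refine hseg q true r j s 0 e8 fun u hu => Or.inr (Or.inr ⟨?_, rfl⟩)
    rcases mem_uIcc_val hu with h | h
    · have := s.2.1
      have h2 := h.2
      rw [z0] at h2
      linarith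
    · linarith [h.2]
  -- relations
  have R1 : ∀ j q r, H q false 0 r j e8 = H (σ false q) false 0 r j e8 := by
    intro j q r
    rw [← top1 q false false r j e8, F1 q r j 1]
  have R2 : ∀ j q r, H q false 0 r j e8 = H q false 0 r j f8 := by
    intro j q r
    rw [← F1 q r j q4, ← F2 q r j q4 (by rw [q4_val]), ← F3 q r j f8 (by rw [f8_val]; norm_num)
      (by rw [f8_val])]
  have R3 : ∀ j q r, H q false 0 r j f8 = H (σ true q) false 0 r j f8 := by
    intro j q r
    rw [← top1 q true false r j f8, T1 q r j 1, bot1 q true false]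
  have R4 : ∀ j j' q r, H q false 0 r j f8 = H q false 0 (σ j r) j' e8 := by
    intro j j' q r
    rw [bot1 q false true r j f8, ← T1 q r j q4, ← T2 q r j 1 (by rw [z1]; norm_num),
      top2 q true q4 r j j', T3 q (σ j r) j' 0 (by rw [z0]; norm_num),
      T4 q (σ j r) j' q4 (by rw [q4_val]), bot1 q true false]
  have R5 : ∀ j j' q r, H q false 0 r j e8 = H q false 0 (σ j r) j' e8 := by
    intro j j' q r
    rw [R2 j q r, R4 j j' q r]
  have R6 : ∀ j j' q r, H q false 0 r j e8 = H q false 0 r j' e8 := by
    intro j j' q r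
    obtain ⟨r0, rfl⟩ := (σ false).surjective r
    rw [← R5 false j q r0, ← R5 false j' q r0]
  -- `al q r`
  have A1 : ∀ i q r, H q false 0 r false e8 = H (σ i q) false 0 r false e8 := by
    intro i q r
    cases i with
    | false => exact R1 false q r
    | true => rw [R2 false q r, R3 false q r, ← R2 false (σ true q) r]
  have A2 : ∀ j q r, H q false 0 r false e8 = H q false 0 (σ j r) false e8 := by
    intro j q r
    rw [R6 false j q r, R5 j false q r]
  have C1 : ∀ r, Continuous fun q : Q => H q false 0 r false e8 := by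
    intro r
    have : Continuous fun q : Q => f (Φ (q, false, 0), Φ (r, false, e8)) := by
      refine hf.comp_continuous (by fun_prop) ?_
      intro q
      exact hmem _ _ _ _ _ _ (Or.inl rfl)
    simpa only [hH] using this
  have C2 : ∀ q, Continuous fun r : Q => H q false 0 r false e8 := by
    intro q
    have : Continuous fun r : Q => f (Φ (q, false, 0), Φ (r, false, e8)) := by
      refine hf.comp_continuous (by fun_prop) ?_
      intro r
      exact hmem _ _ _ _ _ _ (Or.inl rfl)
    simpa only [hH] using this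
  have K : ∀ g : Q → Bool, Continuous g → (∀ i q, g q = g (σ i q)) → ∀ q q', g q = g q' := by
    intro g hg hinv q q'
    have hD : IsClopen {q | g q = true} := (isClopen_discrete {true}).preimage hg
    rcases hT {q | g q = true} hD (fun i q => by simp only [mem_ofPred_eq, ← hinv i q]) with h | h
    · have h1 : ¬ g q = true := fun hq => by
        have : q ∈ ({q | g q = true} : Set Q) := hq
        rw [h] at this
        exact this
      have h2 : ¬ g q' = true := fun hq => by
        have : q' ∈ ({q | g q = true} : Set Q) := hq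
        rw [h] at this
        exact this
      rw [Bool.not_eq_true] at h1 h2
      rw [h1, h2]
    · have h1 : g q = true := by
        have : q ∈ ({q | g q = true} : Set Q) := by rw [h]; exact mem_univ _
        exact this
      have h2 : g q' = true := by
        have : q' ∈ ({q | g q = true} : Set Q) := by rw [h]; exact mem_univ _
        exact this
      rw [h1, h2]
  obtain ⟨c, hc⟩ : ∃ c, ∀ q r, H q false 0 r false e8 = c := by
    refine ⟨H (fun _ => false) false 0 (fun _ => false) false e8, fun q r => ?_⟩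
    rw [K (fun q => H q false 0 r false e8) (C1 r) (fun i q => A1 i q r) q (fun _ => false)]
    exact K (fun r => H (fun _ => false) false 0 r false e8) (C2 _)
      (fun j r => A2 j (fun _ => false) r) r (fun _ => false)
  have hal : ∀ q r j, H q false 0 r j e8 = c := fun q r j => by rw [R6 j false q r, hc]
  have hbe : ∀ q r j, H q false 0 r j f8 = c := fun q r j => by rw [← R2 j q r, hal]
  have all : ∀ x ∈ Wset Φ, f x = c := by
    rintro x ⟨q, i, s, r, j, t, hM, rfl⟩
    rw [← hH]
    cases i with
    | false =>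
      rcases hM with h | ⟨h1, h2⟩ | ⟨h1, h2, h3⟩ | ⟨h1, h2, h3, h4⟩
      · have ht : t = e8 := Subtype.ext h
        rw [ht, F1, hal]
      · have ht : t = f8 := Subtype.ext h2
        rw [ht, F2 q r j s h1, hbe]
      · have hs : s = q4 := Subtype.ext h1
        rw [hs, F3 q r j t h2 h3, F1, hal]
      · rw [F4 q r j s t h1 h2 h3 h4, F1, hal]
    | true =>
      rcases hM with h | ⟨h1, h2 | h2⟩ | ⟨h1, h2⟩
      · have ht : t = f8 := Subtype.ext h
        rw [ht, T1, bot1 q true false, hbe]
      · have hs : s = q4 := Subtype.ext h1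
        rw [hs, T2 q r j t h2, T1, bot1 q true false, hbe]
      · have hs : s = q4 := Subtype.ext h1
        rw [hs, T3 q r j t h2, T4 q r j q4 (by rw [q4_val]), bot1 q true false, hal]
      · have ht : t = e8 := Subtype.ext h2
        rw [ht, T4 q r j s h1, bot1 q true false, hal]
  intro x hx y hy
  rw [all x hx, all y hy]

end Pool.Agent.N832.TC.Wconn
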